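import Pool.Agent.P8H40.PL.Stm
import Pool.Agent.Y119.ML.Fam2

/-!
# Package GSP of the project PY (MP_725b61_nt): the family `1, Li_s(α_i x)` is a G-system
-/

set_option autoImplicit false
set_option linter.all false

namespace Pool.Agent.P8H73.PL

open PowerSeries Finset
open Pool.Agent.Y113 hiding TT ps_X
open Pool.Agent.P8H40.PL (li y pr TT AA S_GSP)
open Pool.Agent.Y119.ML (geo geo_mul geo_eq In theta_In const_In ps_X ps_lin Bd_X Bd_prod DerP DerP_one SDp_In
  der_int common)

lemma li_zero (a : ℤ) : li a 0 = geo a := by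
  ext m
  simp [li, geo]

lemma li_succ (a : ℤ) (s : ℕ) : li a (s + 1) = In (li a s) := by
  ext m
  rw [li, coeff_mk, In, coeff_mk, li, coeff_mk, div_div, pow_succ]

lemma theta_li (a : ℤ) (s : ℕ) : X * d⁄dX ℚ (li a (s + 2)) = li a (s + 1) := by
  rw [li_succ a (s + 1), theta_In, li_succ a s, const_In, map_zero, sub_zero]

lemma theta_li_one (a : ℤ) : X * d⁄dX ℚ (li a 1) = (a : ℚ⟦X⟧) * X * geo a := by
  rw [li_succ a 0, theta_In, li_zero]
  have h : constantCoeff (geo a) = (1 : ℚ) := by
    rw [← coeff_zero_eq_constantCoeff_apply, geo, coeff_mk, pow_zero]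
  rw [h, map_one]
  have := geo_eq a
  linear_combination this

variable {n : ℕ} (α : Fin n → ℤ)

lemma ps_pr_univ (i : Fin n) : ps (pr α univ) = (1 - ((α i : ℤ) : ℚ⟦X⟧) * X) * ps (pr α (univ.erase i)) := by
  have h : pr α univ = (1 - Polynomial.C (α i) * Polynomial.X) * pr α (univ.erase i) :=
    (mul_prod_erase univ (fun i => (1 - Polynomial.C (α i) * Polynomial.X)) (mem_univ i)).symm
  rw [h, ps_mul, ps_lin]

/-- the differential equations -/
theorem ode (W : ℕ) (o : Option (Fin n × Fin W)) :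
    ps (TT α) * d⁄dX ℚ (y α W o) = ∑ o', ps (AA α W o o') * y α W o' := by
  classical
  have hT : ps (TT α) = X * ps (pr α univ) := by
    rw [TT, ps_mul, ps_X]
  rcases o with _ | ⟨i, s, hs⟩
  · have h1 : y α W none = 1 := rfl
    have h2 : ∀ o', AA α W none o' = 0 := fun o' => by cases o' <;> rfl
    rw [h1]
    have h3 : d⁄dX ℚ (1 : ℚ⟦X⟧) = 0 := by
      rw [Derivation.map_one_eq_zero]
    rw [h3, mul_zero]
    symm
    refine sum_eq_zero fun o' _ => ?_
    rw [h2, ps_zero, zero_mul]
  · rw [Fintype.sum_option]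
    cases s with
    | zero =>
      have h0 : y α W (some (i, ⟨0, hs⟩)) = li (α i) 1 := rfl
      have h1 : AA α W (some (i, ⟨0, hs⟩)) none =
          Polynomial.C (α i) * (Polynomial.X * pr α (univ.erase i)) := by
        rw [AA]
        exact if_pos rfl
      have h2 : ∀ v', AA α W (some (i, ⟨0, hs⟩)) (some v') = 0 := by
        intro v'
        rw [AA]
        exact if_neg (fun h => absurd h.2 (Nat.succ_ne_zero _).symm)
      have h3 : ∑ v', ps (AA α W (some (i, ⟨0, hs⟩)) (some v')) * y α W (some v') = 0 := by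
        refine sum_eq_zero fun v' _ => ?_
        rw [h2, ps_zero, zero_mul]
      have h4 : y α W none = 1 := rfl
      rw [h3, h1, h0, h4, add_zero, mul_one, hT, ps_mul, ps_mul, ps_C, ps_X, ps_pr_univ α i]
      have h5 := theta_li_one (α i)
      have h6 := geo_mul (α i)
      linear_combination ((1 - ((α i : ℤ) : ℚ⟦X⟧) * X) * ps (pr α (univ.erase i))) * h5 +
        (((α i : ℤ) : ℚ⟦X⟧) * X * ps (pr α (univ.erase i))) * h6
    | succ s =>
      have h0 : y α W (some (i, ⟨s + 1, hs⟩)) = li (α i) (s + 2) := rfl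
      have h1 : AA α W (some (i, ⟨s + 1, hs⟩)) none = 0 := by
        rw [AA]
        exact if_neg (Nat.succ_ne_zero s)
      have h2 : AA α W (some (i, ⟨s + 1, hs⟩)) (some (i, ⟨s, (Nat.lt_succ_self s).trans hs⟩)) = pr α univ := by
        rw [AA]
        exact if_pos ⟨rfl, rfl⟩
      rw [h1, ps_zero, zero_mul, zero_add, sum_eq_single (i, (⟨s, (Nat.lt_succ_self s).trans hs⟩ : Fin W))]
      · have h4 : y α W (some (i, ⟨s, (Nat.lt_succ_self s).trans hs⟩)) = li (α i) (s + 1) := rfl
        rw [h2, h0, h4, hT]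
        have h5 := theta_li (α i) s
        linear_combination (ps (pr α univ)) * h5
      · rintro ⟨j, t⟩ _ hne
        have h3 : AA α W (some (i, ⟨s + 1, hs⟩)) (some (j, t)) = 0 := by
          rw [AA]
          refine if_neg ?_
          rintro ⟨h, h'⟩
          apply hne
          have h7 : i = j := h
          have h8 : s + 1 = (t : ℕ) + 1 := h'
          rw [h7]
          congr 1
          exact Fin.ext (Nat.succ_injective h8).symm
        rw [h3, ps_zero, zero_mul]
      · intro h
        exact absurd (mem_univ _) h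

/-- sizes and denominators of the geometric series -/
lemma SDp_geo (a : ℤ) : SDp (|(a : ℝ)| + 1) (geo a) := by
  have h0 : (0 : ℝ) ≤ |(a : ℝ)| := abs_nonneg _
  have h1 : (1 : ℝ) ≤ |(a : ℝ)| + 1 := by linarith
  refine ⟨fun m => ?_, fun m => ⟨1, one_pos, by simpa using one_le_pow₀ h1, fun j _ => ⟨a ^ j, ?_⟩⟩⟩
  · rw [geo, coeff_mk]
    push_cast
    rw [abs_pow]
    exact (pow_le_pow_left₀ h0 (by linarith) _).trans (pow_le_pow_right₀ h1 (Nat.le_succ m))
  · rw [geo, coeff_mk]
    push_cast
    ring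

lemma SDp_li (a : ℤ) (s : ℕ) : ∃ A : ℝ, SDp A (li a s) := by
  induction s with
  | zero => exact ⟨_, by rw [li_zero]; exact SDp_geo a⟩
  | succ s ih =>
    obtain ⟨A, hA⟩ := ih
    exact ⟨_, by rw [li_succ]; exact SDp_In hA⟩

lemma SDp_y (W : ℕ) (o : Option (Fin n × Fin W)) : ∃ A : ℝ, SDp A (y α W o) := by
  rcases o with _ | v
  · exact ⟨1, SDp.one⟩
  · exact SDp_li _ _

/-- bounds for the polynomials -/
lemma bd_all (W : ℕ) : ∃ B : ℝ, 1 ≤ B ∧ Bd (n + 1) B (TT α) ∧ ∀ o o', Bd (n + 1) B (AA α W o o') := by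
  set B0 : ℝ := 1 + ∑ i, |((α i : ℤ) : ℝ)| with hB0
  have h0 : 1 ≤ B0 := by
    have : (0 : ℝ) ≤ ∑ i, |((α i : ℤ) : ℝ)| := sum_nonneg fun _ _ => abs_nonneg _
    linarith
  have hα : ∀ i, |((α i : ℤ) : ℝ)| ≤ B0 := by
    intro i
    have := single_le_sum (f := fun i => |((α i : ℤ) : ℝ)|) (fun _ _ => abs_nonneg _) (mem_univ i)
    linarith
  set M : ℝ := (2 * B0) ^ n with hM
  have h2 : (1 : ℝ) ≤ 2 * B0 := by linarith
  have hM1 : 1 ≤ M := one_le_pow₀ h2
  have hpr : ∀ s : Finset (Fin n), Bd n M (pr α s) := by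
    intro s
    have hs : s.card ≤ n := (card_le_univ s).trans (by simp)
    exact (Bd_prod h0 s α hα).mono hs (pow_le_pow_right₀ h2 hs)
  have hX : ∀ s : Finset (Fin n), Bd (n + 1) (2 * M) (Polynomial.X * pr α s) := by
    intro s
    refine ((Bd_X 1 le_rfl).mul (hpr s)).mono (by omega) (le_of_eq ?_)
    push_cast
    ring
  have hCX : ∀ (i : Fin n) (s : Finset (Fin n)),
      Bd (n + 1) (B0 * (2 * M)) (Polynomial.C (α i) * (Polynomial.X * pr α s)) := fun i s =>
    (hX s).C_mul (hα i)
  have h3 : 2 * M ≤ B0 * (2 * M) := le_mul_of_one_le_left (by linarith) h0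
  refine ⟨B0 * (2 * M), by linarith, (hX univ).mono le_rfl h3, ?_⟩
  have hz : Bd (n + 1) (B0 * (2 * M)) 0 := by
    refine ⟨by simp, fun l => ?_⟩
    simp only [Polynomial.coeff_zero, Int.cast_zero, abs_zero]
    linarith
  intro o o'
  rcases o with _ | v
  · have h : AA α W none o' = 0 := by cases o' <;> rfl
    rw [h]
    exact hz
  · rcases o' with _ | v'
    · rw [AA]
      split_ifs
      · exact hCX _ _
      · exact hz
    · rw [AA]
      split_ifs
      · exact (hpr univ).mono (by omega) (by linarith)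
      · exact hz

/-- the level of a function -/
def lev {W : ℕ} : Option (Fin n × Fin W) → ℕ
  | none => 0
  | some v => (v.2 : ℕ) + 1

/-- Galochkin's condition -/
lemma der_all (W : ℕ) (s : ℕ) : ∃ D : ℝ, 1 ≤ D ∧ ∀ o : Option (Fin n × Fin W), lev o ≤ s →
    DerP (n + 1) D (TT α) (y α W) (y α W o) := by
  classical
  induction s with
  | zero =>
    refine ⟨1, le_rfl, fun o ho => ?_⟩
    rcases o with _ | v
    · exact DerP_one le_rfl none rfl
    · exact absurd ho (Nat.not_succ_le_zero _)
  | succ s ih =>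
    obtain ⟨D, hD1, hD⟩ := ih
    obtain ⟨B, hB1, hBT, hBA⟩ := bd_all α W
    obtain ⟨E, hE⟩ := der_int (n + 1) (Fintype.card (Option (Fin n × Fin W)))
    set C : ℝ := max D B with hC
    have hC1 : 1 ≤ C := hD1.trans (le_max_left _ _)
    have h2C : 1 ≤ 2 * C := by linarith
    refine ⟨(2 * C) ^ E + C, ?_, fun o ho => ?_⟩
    · have : (0 : ℝ) ≤ (2 * C) ^ E := by positivity
      linarith
    · have hlow : ∀ o' : Option (Fin n × Fin W), lev o' ≤ s → DerP (n + 1) C (TT α) (y α W) (y α W o') :=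
        fun o' ho' => (hD o' ho').mono (by linarith) (le_max_left _ _)
      by_cases hos : lev o ≤ s
      · refine (hlow o hos).mono (by linarith) ?_
        have : (0 : ℝ) ≤ (2 * C) ^ E := by positivity
        linarith
      · refine (hE (Option (Fin n × Fin W)) C (TT α) (y α W) (univ.filter fun o' => lev o' ≤ s) o
          (fun o' => AA α W o o') le_rfl hC1 (hBT.mono le_rfl (le_max_right _ _))
          (fun o' _ => (hBA o o').mono le_rfl (le_max_right _ _))
          (fun o' ho' => hlow o' (mem_filter.1 ho').2) ?_).mono (by positivity) (by linarith)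
        rw [ode α W o]
        symm
        refine sum_subset (subset_univ _) fun o' _ ho' => ?_
        have hz : AA α W o o' = 0 := by
          have ho'' : ¬ lev o' ≤ s := fun h => ho' (mem_filter.2 ⟨mem_univ _, h⟩)
          rcases o with _ | v
          · cases o' <;> rfl
          · rcases o' with _ | v'
            · exact absurd (Nat.zero_le s) ho''
            · rw [AA]
              refine if_neg ?_
              rintro ⟨-, h⟩
              have h1 : (v.2 : ℕ) + 1 ≤ s + 1 := ho
              apply ho''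
              change (v'.2 : ℕ) + 1 ≤ s
              omega
        rw [hz, ps_zero, zero_mul]

theorem gsp : S_GSP := by
  classical
  intro n W α
  refine ⟨ode α W, ?_⟩
  obtain ⟨B, hB1, hBT, hBA⟩ := bd_all α W
  obtain ⟨D, hD1, hD⟩ := der_all α W W
  have hDall : ∀ o : Option (Fin n × Fin W), DerP (n + 1) D (TT α) (y α W) (y α W o) := by
    intro o
    refine hD o ?_
    rcases o with _ | v
    · exact Nat.zero_le _
    · exact v.2.2
  choose A hA using fun o => SDp_y α W o
  have hA1 : ∀ o, 1 ≤ A o := fun o => (hA o).one_le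
  set S : ℝ := ∏ o, A o with hS
  have hAS : ∀ o, A o ≤ S := by
    intro o
    rw [hS, ← mul_prod_erase univ A (mem_univ o)]
    refine le_mul_of_one_le_right (by linarith [hA1 o]) ?_
    exact Finset.prod_induction A (fun x => 1 ≤ x) (fun a b ha hb => one_le_mul_of_one_le_of_one_le ha hb) le_rfl
      fun x _ => hA1 x
  have hS1 : 1 ≤ S := (hA1 none).trans (hAS none)
  set N := Fintype.card (Option (Fin n × Fin W)) with hN
  have hDN : 1 ≤ D ^ (N + 1) := one_le_pow₀ hD1
  have hDN' : D ^ N ≤ D ^ (N + 1) := pow_le_pow_right₀ hD1 (Nat.le_succ N)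
  refine ⟨n + 1, B + S + D ^ (N + 1), ⟨by linarith, hBT.1, fun l => (hBT.2 l).trans (by linarith), fun o m => ?_,
    fun m => ?_, fun k => ?_⟩⟩
  · exact ((hA o).1 m).trans (pow_le_pow_left₀ (by linarith [hA1 o]) (by linarith [hAS o]) _)
  · have h1 := fun o => (hA o).2 m
    choose d hd0 hd1 hd2 using h1
    refine ⟨∏ o, d o, prod_pos fun o _ => hd0 o, ?_, fun o j hj => ?_⟩
    · push_cast
      calc ∏ o, (d o : ℝ) ≤ ∏ o, A o ^ (m + 1) :=
            prod_le_prod (fun _ _ => by positivity) (fun o _ => hd1 o)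
        _ = S ^ (m + 1) := by rw [prod_pow]
        _ ≤ _ := pow_le_pow_left₀ (by linarith) (by linarith) _
    · obtain ⟨a, ha⟩ := hd2 o j hj
      refine ⟨(∏ o' ∈ univ.erase o, d o' : ℕ) * a, ?_⟩
      rw [← mul_prod_erase univ d (mem_univ o)]
      push_cast
      rw [← ha]
      push_cast
      ring
  · obtain ⟨d, h1, h2, h3⟩ := common (q := n + 1) (C := D) (T := TT α) (y := y α W) hD1 N le_rfl univ
      (fun o _ => hDall o) k
    refine ⟨d, h1, h2.trans (pow_le_pow_left₀ (by positivity) (by linarith) _), fun s hs => ?_⟩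
    obtain ⟨G, hG⟩ := h3 s hs
    refine ⟨G, fun i j => ((hG i (mem_univ i)).1 j).1, fun i j l => (((hG i (mem_univ i)).1 j).2 l).trans ?_,
      fun i => (hG i (mem_univ i)).2⟩
    exact pow_le_pow_left₀ (by positivity) (by linarith) _

end Pool.Agent.P8H73.PL
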